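import Pool.Agent.Helper34.SQ.GoalsM

/-!
Project SQ (MP_bb32d1_al), packet BZ.
-/

set_option autoImplicit false

namespace Pool.Agent.Helper10.SQ

open Finset Pool.Agent.Helper19.SQ Pool.Agent.Helper34.SQ

theorem t_bz (hCOMB : S_COMB) : Pool.Agent.Helper34.SQ.S_BZ := by
  intro N l _ μ x dm hdm hne
  have key : bt dm x = ∑ S ∈ (phiP N).powerset, (-1 : ℤ) ^ S.card *
      #{a : EX N l | wtE N a.1 + sumP S = μ - rhoP N - x} := by
    rw [bt]
    refine Finset.sum_congr rfl fun S _ => ?_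
    rw [hdm]
    congr 3
    ext a
    simp only [Finset.mem_filter, Finset.mem_univ, true_and]
    constructor
    · intro h
      have h1 := sub_eq_iff_eq_add.1 h
      rw [eq_sub_iff_add_eq, eq_sub_iff_add_eq, h1]
      abel
    · intro h
      rw [eq_sub_iff_add_eq, eq_sub_iff_add_eq] at h
      rw [← h]
      abel
  rw [key] at hne
  have h1 := hCOMB N l (μ - rhoP N - x) (Nat.pos_of_ne_zero (NeZero.ne l)) hne
  have h2 : ∀ p, ((x p : ℤ) : ZMod l) = (((μ - rhoP N) p : ℤ) : ZMod l) := by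
    intro p
    rw [ZMod.intCast_eq_intCast_iff_dvd_sub]
    exact h1 p
  funext c
  simp only [Pool.Agent.Helper34.SQ.ty, h2]

end Pool.Agent.Helper10.SQ
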