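import Pool.Agent.Helper34.SQ.GoalsM

/-!
Project SQ (MP_bb32d1_al), packet FSUPP: the support of the function `bt` of a graded module killed
by a block idempotent.
-/

set_option autoImplicit false
set_option linter.unusedSectionVars false

namespace Pool.Agent.Helper10.SQ

noncomputable section

open Finset Matrix Pool.Agent.Helper19.SQ Pool.Agent.Helper34.SQ

/-! ### the linear form `hf` -/

theorem hf_add (N : ℕ) (μ ν : Fin (N + 1) → ℤ) : hf N (μ + ν) = hf N μ + hf N ν := by
  simp only [hf, Pi.add_apply, mul_add, Finset.sum_add_distrib]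

theorem hf_sub (N : ℕ) (μ ν : Fin (N + 1) → ℤ) : hf N (μ - ν) = hf N μ - hf N ν := by
  simp only [hf, Pi.sub_apply, mul_sub, Finset.sum_sub_distrib]

theorem hf_zero (N : ℕ) : hf N 0 = 0 := by simp [hf]

theorem hf_sum {ι : Type} (N : ℕ) (S : Finset ι) (f : ι → Fin (N + 1) → ℤ) :
    hf N (∑ p ∈ S, f p) = ∑ p ∈ S, hf N (f p) := by
  classical
  induction S using Finset.induction_on with
  | empty => simp [hf_zero]
  | insert a S ha ih => rw [Finset.sum_insert ha, Finset.sum_insert ha, hf_add, ih]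

theorem hf_single (N : ℕ) (i : Fin (N + 1)) : hf N (Pi.single i 1) = (N : ℤ) - ((i : ℕ) : ℤ) := by
  rw [hf, Finset.sum_eq_single i]
  · simp
  · intro j _ hj
    rw [Pi.single_apply, if_neg hj, mul_zero]
  · intro h; exact absurd (Finset.mem_univ _) h

theorem hf_root (N : ℕ) (p : Fin (N + 1) × Fin (N + 1)) :
    hf N (Pi.single p.1 1 - Pi.single p.2 1) = ((p.2 : ℕ) : ℤ) - ((p.1 : ℕ) : ℤ) := by
  rw [hf_sub, hf_single, hf_single]; ring

theorem hf_sumP_nonneg {N : ℕ} {S : Finset (Fin (N + 1) × Fin (N + 1))} (hS : S ⊆ phiP N) :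
    0 ≤ hf N (sumP S) := by
  rw [sumP, hf_sum]
  refine Finset.sum_nonneg fun p hp => ?_
  rw [hf_root]
  have h := hS hp
  simp only [phiP, Finset.mem_filter, Finset.mem_univ, true_and] at h
  have : (p.1 : ℕ) < (p.2 : ℕ) := h
  omega

theorem hf_wtE (N : ℕ) (b : ℕ → ℕ → ℕ) : hf N (wtE N b) =
    ∑ i ∈ range (N + 1), ∑ j ∈ range (N + 1), (b i j : ℤ) * ((j : ℤ) - (i : ℤ)) := by
  have h1 : hf N (wtE N b) = ∑ p ∈ range (N + 1), ((N : ℤ) - (p : ℤ)) *
      (∑ j ∈ range (N + 1), (b p j : ℤ) - ∑ i ∈ range (N + 1), (b i p : ℤ)) := by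
    rw [hf, ← Fin.sum_univ_eq_sum_range (fun p => ((N : ℤ) - (p : ℤ)) *
      (∑ j ∈ range (N + 1), (b p j : ℤ) - ∑ i ∈ range (N + 1), (b i p : ℤ)))]
    rfl
  rw [h1]
  simp only [mul_sub, Finset.sum_sub_distrib, Finset.mul_sum]
  have h2 : ∑ p ∈ range (N + 1), ∑ i ∈ range (N + 1), ((N : ℤ) - (p : ℤ)) * (b i p : ℤ) =
      ∑ i ∈ range (N + 1), ∑ j ∈ range (N + 1), ((N : ℤ) - (j : ℤ)) * (b i j : ℤ) :=
    Finset.sum_comm
  rw [h2, ← Finset.sum_sub_distrib, ← Finset.sum_sub_distrib]
  refine Finset.sum_congr rfl fun i _ => ?_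
  rw [← Finset.sum_sub_distrib, ← Finset.sum_sub_distrib]
  refine Finset.sum_congr rfl fun j _ => ?_
  ring

theorem wtE_term_nonneg {N l : ℕ} {b : ℕ → ℕ → ℕ} (hb : IsEx N l b) (i j : ℕ) :
    0 ≤ (b i j : ℤ) * ((j : ℤ) - (i : ℤ)) := by
  by_cases h : i < j ∧ j ≤ N
  · exact mul_nonneg (by positivity) (by omega)
  · rw [(hb i j).2 h]; simp

theorem hf_wtE_nonneg {N l : ℕ} {b : ℕ → ℕ → ℕ} (hb : IsEx N l b) : 0 ≤ hf N (wtE N b) := by
  rw [hf_wtE]
  exact Finset.sum_nonneg fun i _ => Finset.sum_nonneg fun j _ => wtE_term_nonneg hb i j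

theorem eq_zero_of_hf {N l : ℕ} {b : ℕ → ℕ → ℕ} (hb : IsEx N l b) (h : hf N (wtE N b) = 0) :
    b = fun _ _ => 0 := by
  rw [hf_wtE, Finset.sum_eq_zero_iff_of_nonneg
    (fun i _ => Finset.sum_nonneg fun j _ => wtE_term_nonneg hb i j)] at h
  funext i j
  by_cases hij : i < j ∧ j ≤ N
  · have h1 := h i (Finset.mem_range.2 (by omega))
    rw [Finset.sum_eq_zero_iff_of_nonneg (fun j _ => wtE_term_nonneg hb i j)] at h1
    have h2 := h1 j (Finset.mem_range.2 (by omega))
    rcases mul_eq_zero.1 h2 with h3 | h3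
    · exact_mod_cast h3
    · omega
  · exact (hb i j).2 hij

/-! ### the function `bt` -/

theorem bt_add {N : ℕ} (f g h : (Fin (N + 1) → ℤ) → ℤ) (hfg : ∀ μ, f μ = g μ + h μ)
    (x : Fin (N + 1) → ℤ) : bt f x = bt g x + bt h x := by
  simp only [bt, hfg, mul_add, Finset.sum_add_distrib]

theorem bt_eq_zero {N : ℕ} (f : (Fin (N + 1) → ℤ) → ℤ) (x : Fin (N + 1) → ℤ)
    (h : ∀ ν, f ν ≠ 0 → hf N ν < hf N (x + rhoP N)) : bt f x = 0 := by
  rw [bt]
  refine Finset.sum_eq_zero fun S hS => ?_
  have h1 : f (x + rhoP N + sumP S) = 0 := by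
    by_contra hc
    have h2 := h _ hc
    rw [hf_add N (x + rhoP N)] at h2
    have h3 := hf_sumP_nonneg (Finset.mem_powerset.1 hS)
    omega
  rw [h1, mul_zero]

/-! ### `tw` -/

section tw

variable {N : ℕ} (s : ℕ → ℂˣ)

theorem tw_add (μ ν : Fin (N + 1) → ℤ) : tw N s (μ + ν) = tw N s μ * tw N s ν := by
  simp only [tw, ← Finset.prod_mul_distrib]
  refine Finset.prod_congr rfl fun j _ => ?_
  rw [Pi.add_apply, zpow_add₀ (s j).ne_zero]

theorem tw_single (i : Fin (N + 1)) (c : ℤ) : tw N s (Pi.single i c) = (s i : ℂ) ^ c := by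
  rw [tw, Finset.prod_eq_single i]
  · simp
  · intro j _ hj
    rw [Pi.single_apply, if_neg hj, zpow_zero]
  · intro h; exact absurd (Finset.mem_univ _) h

end tw

section mods

variable {N l : ℕ} {q : ℂ}

theorem dmM_nonneg (s : ℕ → ℂˣ) {M : Type} [AddCommGroup M] [Module ℂ M] (Θ : M →ₗ[ℂ] M)
    (μ : Fin (N + 1) → ℤ) : 0 ≤ dmM N s Θ μ := by
  rw [dmM]; positivity

theorem dmM_ne_zero (s : ℕ → ℂˣ) {M : Type} [AddCommGroup M] [Module ℂ M]
    [FiniteDimensional ℂ M] (Θ : M →ₗ[ℂ] M) {μ : Fin (N + 1) → ℤ} {y : M} (hy : y ≠ 0)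
    (h : y ∈ Module.End.eigenspace Θ (tw N s μ)) : dmM N s Θ μ ≠ 0 := by
  intro h0
  rw [dmM] at h0
  have h1 : Module.finrank ℂ (Module.End.eigenspace Θ (tw N s μ)) = 0 := by exact_mod_cast h0
  have h2 := Submodule.finrank_eq_zero.1 h1
  rw [h2] at h
  exact hy (Submodule.mem_bot ℂ |>.1 h)

theorem exists_of_dmM_ne_zero (s : ℕ → ℂˣ) {M : Type} [AddCommGroup M] [Module ℂ M]
    (Θ : M →ₗ[ℂ] M) {μ : Fin (N + 1) → ℤ} (h : dmM N s Θ μ ≠ 0) :
    ∃ y ∈ Module.End.eigenspace Θ (tw N s μ), y ≠ 0 := by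
  refine (Submodule.ne_bot_iff _).1 fun hb => h ?_
  rw [dmM, hb]
  simp

/-- scalars act through the algebra. -/
theorem alg_smul {M : Type} [AddCommGroup M] [Module ℂ M] [Module (A N l q) M]
    [IsScalarTower ℂ (A N l q) M] (c : ℂ) (m : M) : algebraMap ℂ (A N l q) c • m = c • m := by
  rw [Algebra.algebraMap_eq_smul_one, smul_assoc, one_smul]

theorem smul_csmul {M : Type} [AddCommGroup M] [Module ℂ M] [Module (A N l q) M]
    [IsScalarTower ℂ (A N l q) M] (a : A N l q) (c : ℂ) (m : M) : a • (c • m) = c • (a • m) :=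
  (lsm a).map_smul c m

theorem lin_csmul {M M' : Type} [AddCommGroup M] [Module ℂ M] [Module (A N l q) M]
    [IsScalarTower ℂ (A N l q) M] [AddCommGroup M'] [Module ℂ M'] [Module (A N l q) M']
    [IsScalarTower ℂ (A N l q) M'] (g : M →ₗ[A N l q] M') (c : ℂ) (m : M) :
    g (c • m) = c • g m := by
  rw [← alg_smul (N := N) (l := l) (q := q) c m, map_smul, alg_smul]

theorem qz_rd [NeZero l] (hq : IsPrimitiveRoot q l) (c : ℤ) : qz q ((c : ℤ) : ZMod l) = q ^ c := by
  have h1 : (((c : ZMod l).val : ℕ) : ℤ) = c % l := ZMod.val_intCast c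
  have hq0 : q ≠ 0 := hq.ne_zero (NeZero.ne l)
  rw [qz, ← zpow_natCast, h1]
  conv_rhs => rw [← Int.mul_ediv_add_emod c l]
  rw [zpow_add₀ hq0, _root_.zpow_mul, zpow_natCast, hq.pow_eq_one, _root_.one_zpow, one_mul]

/-- the homomorphism `Z(lam) → M` of a singular vector. -/
theorem exists_hom (q : ℂ) (lam : Fin (N + 1) → ZMod l) {M : Type} [AddCommGroup M] [Module ℂ M]
    [Module (A N l q) M] [IsScalarTower ℂ (A N l q) M] (y : M) (hy : Sing q lam y) :
    ∃ g : Zl (N := N) q lam →ₗ[A N l q] M, ∀ a : A N l q, g (a • zgen q lam) = a • y := by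
  have hle : Jl q lam ≤ LinearMap.ker (LinearMap.toSpanSingleton (A N l q) M y) := by
    rw [Jl, Submodule.span_le]
    rintro x (⟨i, rfl⟩ | ⟨j, rfl⟩)
    · simpa [LinearMap.mem_ker] using hy.1 i
    · simp only [SetLike.mem_coe, LinearMap.mem_ker, LinearMap.toSpanSingleton_apply, sub_smul,
        alg_smul]
      rw [hy.2 j, sub_self]
  refine ⟨(Jl q lam).liftQ (LinearMap.toSpanSingleton (A N l q) M y) hle, fun a => ?_⟩
  have h1 : a • zgen (N := N) q lam = (Jl q lam).mkQ a := by
    rw [zgen, ← Submodule.mkQ_apply]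
    change a • (Jl q lam).mkQ 1 = _
    rw [← map_smul, smul_eq_mul, mul_one]
  rw [h1]
  exact (Submodule.liftQ_apply _ _ _).trans (LinearMap.toSpanSingleton_apply _ _ _ _)

theorem exists_smul_zgen (q : ℂ) (lam : Fin (N + 1) → ZMod l) (z : Zl (N := N) q lam) :
    ∃ a : A N l q, z = a • zgen q lam := by
  obtain ⟨a, rfl⟩ := Submodule.Quotient.mk_surjective (Jl q lam) z
  refine ⟨a, ?_⟩
  have h1 : a • zgen (N := N) q lam = (Jl q lam).mkQ a := by
    rw [zgen, ← Submodule.mkQ_apply]
    change a • (Jl q lam).mkQ 1 = _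
    rw [← map_smul, smul_eq_mul, mul_one]
  rw [h1]; rfl

theorem sing_zgen (q : ℂ) (lam : Fin (N + 1) → ZMod l) : Sing (N := N) q lam (zgen q lam) := by
  refine ⟨fun i => ?_, fun j => ?_⟩
  · have h1 : gE N l q i • zgen (N := N) q lam = (Jl q lam).mkQ (gE N l q i) := by
      rw [zgen, ← Submodule.mkQ_apply]
      change gE N l q i • (Jl q lam).mkQ 1 = _
      rw [← map_smul, smul_eq_mul, mul_one]
    rw [h1]
    have h2 : gE N l q i ∈ Jl q lam := Submodule.subset_span (Or.inl ⟨i, rfl⟩)
    exact (Submodule.Quotient.mk_eq_zero _).2 h2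
  · have h1 : (gK N l q j - algebraMap ℂ (A N l q) (qz q (lam j))) • zgen (N := N) q lam =
        (Jl q lam).mkQ (gK N l q j - algebraMap ℂ (A N l q) (qz q (lam j))) := by
      rw [zgen, ← Submodule.mkQ_apply]
      change (gK N l q j - algebraMap ℂ (A N l q) (qz q (lam j))) • (Jl q lam).mkQ 1 = _
      rw [← map_smul, smul_eq_mul, mul_one]
    have h2 : gK N l q j - algebraMap ℂ (A N l q) (qz q (lam j)) ∈ Jl q lam :=
      Submodule.subset_span (Or.inr ⟨j, rfl⟩)
    have h3 : (gK N l q j - algebraMap ℂ (A N l q) (qz q (lam j))) • zgen (N := N) q lam = 0 := by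
      rw [h1]
      exact (Submodule.Quotient.mk_eq_zero _).2 h2
    rw [sub_smul, alg_smul, sub_eq_zero] at h3
    exact h3

/-- the set of weights is finite. -/
theorem weights_bdd {s : ℕ → ℂˣ} (hs : Function.Injective (tw N s)) {M : Type} [AddCommGroup M]
    [Module ℂ M] [FiniteDimensional ℂ M] (Θ : M →ₗ[ℂ] M) :
    ∃ B : ℤ, ∀ ν, dmM N s Θ ν ≠ 0 → hf N ν ≤ B := by
  have h1 : {c : ℂ | Module.End.HasEigenvalue Θ c}.Finite := Module.End.finite_hasEigenvalue Θ
  have h2 : {ν : Fin (N + 1) → ℤ | Module.End.HasEigenvalue Θ (tw N s ν)}.Finite :=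
    h1.preimage hs.injOn
  obtain ⟨B, hB⟩ := (h2.image (hf N)).bddAbove
  refine ⟨B, fun ν hν => hB ⟨ν, ?_, rfl⟩⟩
  obtain ⟨y, hy, hy0⟩ := exists_of_dmM_ne_zero s Θ hν
  exact Module.End.hasEigenvalue_of_hasEigenvector ⟨hy, hy0⟩

/-- `E_i y` is an eigenvector. -/
theorem E_mem {hl : l ≠ 0} {s : ℕ → ℂˣ} {M : Type} [AddCommGroup M] [Module ℂ M]
    [Module (A N l q) M] [IsScalarTower ℂ (A N l q) M] {Θ : M →ₗ[ℂ] M}
    (hG : GM (N := N) (q := q) hl s M Θ) {ν : Fin (N + 1) → ℤ} {y : M}
    (hy : y ∈ Module.End.eigenspace Θ (tw N s ν)) (i : ℕ) (hi : i < N) :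
    gE N l q i • y ∈ Module.End.eigenspace Θ (tw N s (ν +
      (Pi.single (⟨i, by omega⟩ : Fin (N + 1)) 1 - Pi.single (⟨i + 1, by omega⟩ : Fin (N + 1)) 1))) := by
  rw [Module.End.mem_eigenspace_iff] at hy ⊢
  rw [hG.eq, hy, tor_E, smul_assoc, smul_csmul, smul_smul]
  congr 1
  rw [tw_add, sub_eq_add_neg, tw_add, ← Pi.single_neg, tw_single, tw_single]
  simp only [zpow_one, _root_.zpow_neg]
  ring

/-- the hypothesis that all weights lie below a bound. -/
def Below (s : ℕ → ℂˣ) {M : Type} [AddCommGroup M] [Module ℂ M] (Θ : M →ₗ[ℂ] M) (b : ℤ) : Prop :=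
  ∀ ν : Fin (N + 1) → ℤ, dmM N s Θ ν ≠ 0 → hf N ν < b

/-- a submodule which contains a nonzero vector makes the quotient smaller. -/
theorem finrank_quot_lt {M : Type} [AddCommGroup M] [Module ℂ M] [Module (A N l q) M]
    [IsScalarTower ℂ (A N l q) M] [FiniteDimensional ℂ M] (W : Submodule (A N l q) M) {y : M}
    (hy : y ∈ W) (hy0 : y ≠ 0) : Module.finrank ℂ (M ⧸ W) < Module.finrank ℂ M := by
  let f : M →ₗ[ℂ] (M ⧸ W) :=
    { toFun := fun m => W.mkQ m
      map_add' := fun a b => map_add _ a b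
      map_smul' := fun c m => lin_csmul W.mkQ c m }
  have hf : Function.Surjective f := fun z => Submodule.Quotient.mk_surjective W z
  have h1 := LinearMap.finrank_range_add_finrank_ker f
  rw [LinearMap.range_eq_top.2 hf, finrank_top] at h1
  have h2 : 0 < Module.finrank ℂ (LinearMap.ker f) := by
    rw [Module.finrank_pos_iff_exists_ne_zero]
    refine ⟨⟨y, ?_⟩, fun h => hy0 (congrArg Subtype.val h)⟩
    rw [LinearMap.mem_ker]
    exact (Submodule.Quotient.mk_eq_zero W).2 hy
  omega

theorem t_fsupp (hTYR : S_TYR) (hGADD : S_GADD) (hGSUB : S_GSUB) (hZGM : S_ZGM) (hBZ : S_BZ) :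
    Pool.Agent.Helper34.SQ.S_FSUPP := by
  intro N l _ q hl s D C hS M _ _ _ _ Θ hGM m hm x hx
  have hs := hS.gen
  -- the outer statement
  have key : ∀ k : ℕ, ∀ n : ℕ, ∀ (M : Type) [AddCommGroup M] [Module ℂ M] [Module (A N l q) M]
      [IsScalarTower ℂ (A N l q) M] (Θ : M →ₗ[ℂ] M), GM (N := N) (q := q) hl s M Θ →
      (∀ y : M, C.e m • y = 0) → Below (N := N) s Θ (hf N (x + rhoP N) + k) →
      Module.finrank ℂ M < n → bt (dmM N s Θ) x = 0 := by
    intro k
    induction k with
    | zero =>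
      intro n M _ _ _ _ Θ hG he hb hn
      refine bt_eq_zero _ _ fun ν hν => ?_
      have := hb ν hν
      simpa using this
    | succ k ihk =>
      intro n
      induction n with
      | zero => intro M _ _ _ _ Θ hG he hb hn; omega
      | succ n ihn =>
        intro M _ _ _ _ Θ hG he hb hn
        haveI := hG.fd
        by_cases hex : ∃ ν, dmM N s Θ ν ≠ 0 ∧ hf N ν = hf N (x + rhoP N) + k
        swap
        · refine ihk (n + 1) M Θ hG he (fun ν hν => ?_) hn
          have h1 := hb ν hν
          push_cast at h1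
          rcases lt_or_eq_of_le (show hf N ν ≤ hf N (x + rhoP N) + k by omega) with h2 | h2
          · exact h2
          · exact absurd ⟨ν, hν, h2⟩ hex
        obtain ⟨ν, hν, hνf⟩ := hex
        obtain ⟨y, hy, hy0⟩ := exists_of_dmM_ne_zero s Θ hν
        -- y is singular
        have hsing : Sing q (rd l ν) y := by
          refine ⟨fun i => ?_, fun j => ?_⟩
          · by_cases hi : i < N
            · by_contra hne
              have h1 := hb _ (dmM_ne_zero s Θ hne (E_mem hG hy i hi))
              rw [hf_add, hf_sub, hf_single, hf_single] at h1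
              push_cast at h1
              omega
            · rw [(glA N l q).E_out i (by omega), zero_smul]
          · rw [hG.wt ν y hy j]
            change _ = qz q ((ν j : ℤ) : ZMod l) • y
            rw [qz_rd hS.par.prim]
        have hty : Pool.Agent.Helper19.SQ.ty (rd l ν) ≠ m := by
          intro h
          have h1 := hS.ev M (rd l ν) m y hsing
          rw [if_pos h, he y] at h1
          exact hy0 h1.symm
        obtain ⟨g, hg⟩ := exists_hom q (rd l ν) y hsing
        obtain ⟨ΘZ, hZG, hZt, hZd⟩ := hZGM N l q hl s D C hS ν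
        have hΘy : Θ y = tw N s ν • y := Module.End.mem_eigenspace_iff.1 hy
        have hcom : ∀ z, g (ΘZ z) = Θ (g z) := by
          intro z
          obtain ⟨a, rfl⟩ := exists_smul_zgen q (rd l ν) z
          rw [hZt, lin_csmul, hg, hg, hG.eq, hΘy, smul_csmul]
        set W := LinearMap.range g with hW
        have hWΘ : ∀ w ∈ W, Θ w ∈ W := by
          rintro w ⟨z, rfl⟩
          exact ⟨ΘZ z, hcom z⟩
        obtain ⟨Θw, Θq, hΘw, hΘq, hGw, hGq, hdim⟩ := hGSUB N l q hl s hs M Θ W hG hWΘ
        have hyW : y ∈ W := ⟨(1 : A N l q) • zgen q (rd l ν), by rw [hg, one_smul]⟩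
        obtain ⟨_, Θk, hΘk, hGk, hdim2⟩ := hGADD N l q hl s hs (Zl (N := N) q (rd l ν)) W ΘZ Θw
          g.rangeRestrict hZG (LinearMap.surjective_rangeRestrict g) (fun z => by
            apply Subtype.ext
            rw [hΘw]
            exact hcom z)
        haveI := hGw.fd
        haveI := hGq.fd
        haveI := hGk.fd
        -- the Z part
        have hZ0 : bt (dmM N s ΘZ) x = 0 := by
          by_contra hne
          have h1 := hBZ N l ν x (dmM N s ΘZ) hZd hne
          rw [← hTYR N l ν, hx] at h1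
          exact hty h1.symm
        -- the kernel
        have heZ : ∀ z : Zl (N := N) q (rd l ν), C.e m • z = 0 := by
          intro z
          obtain ⟨a, rfl⟩ := exists_smul_zgen q (rd l ν) z
          rw [smul_smul, C.e_cen, mul_smul,
            hS.ev (Zl (N := N) q (rd l ν)) (rd l ν) m _ (sing_zgen q (rd l ν)), if_neg hty, smul_zero]
        have hkZ : bt (dmM N s Θk) x = 0 := by
          refine ihk (Module.finrank ℂ (LinearMap.ker g.rangeRestrict) + 1) _ Θk hGk ?_ ?_
            (Nat.lt_succ_self _)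
          · intro z
            apply Subtype.ext
            exact heZ z.1
          · intro μ hμ
            have h1 := hdim2 μ
            have h2 := dmM_nonneg s Θk μ
            have h3 := dmM_nonneg s Θw μ
            have h4 : dmM N s ΘZ μ ≠ 0 := by omega
            rw [hZd μ] at h4
            have h5 : (#{a : EX N l | ν - wtE N a.1 = μ}) ≠ 0 := by exact_mod_cast h4
            obtain ⟨a, ha⟩ := Finset.card_ne_zero.1 h5
            have ha' : ν - wtE N a.1 = μ := (Finset.mem_filter.1 ha).2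
            have h6 := hf_wtE_nonneg a.2
            rcases lt_or_eq_of_le h6 with h7 | h7
            · rw [← ha', hf_sub]; omega
            · exfalso
              have h8 := eq_zero_of_hf a.2 h7.symm
              have h9 : μ = ν := by
                rw [← ha', h8]
                have : wtE N (fun _ _ => 0) = 0 := by funext p; simp [wtE]
                rw [this, sub_zero]
              subst h9
              have h10 : dmM N s ΘZ μ ≤ 1 := by
                rw [hZd μ]
                have : #{b : EX N l | μ - wtE N b.1 = μ} ≤ 1 := by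
                  rw [Finset.card_le_one]
                  intro b hb c hc
                  have hb' : wtE N b.1 = 0 := by
                    have := (Finset.mem_filter.1 hb).2
                    exact sub_eq_self.1 this
                  have hc' : wtE N c.1 = 0 := by
                    have := (Finset.mem_filter.1 hc).2
                    exact sub_eq_self.1 this
                  apply Subtype.ext
                  rw [eq_zero_of_hf b.2 (by rw [hb', hf_zero]),
                    eq_zero_of_hf c.2 (by rw [hc', hf_zero])]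
                exact_mod_cast this
              have h11 : dmM N s Θw μ ≠ 0 := by
                refine dmM_ne_zero s Θw (y := ⟨y, hyW⟩) (fun h => hy0 (congrArg Subtype.val h)) ?_
                rw [Module.End.mem_eigenspace_iff]
                apply Subtype.ext
                rw [hΘw]
                exact hΘy
              omega
        have hw0 : bt (dmM N s Θw) x = 0 := by
          have := bt_add _ _ _ hdim2 x
          omega
        have hq0 : bt (dmM N s Θq) x = 0 := by
          refine ihn (M ⧸ W) Θq hGq ?_ ?_ ?_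
          · intro z
            obtain ⟨z, rfl⟩ := Submodule.Quotient.mk_surjective W z
            rw [← Submodule.Quotient.mk_smul, he z]
            rfl
          · intro μ hμ
            refine hb μ ?_
            have h1 := hdim μ
            have h2 := dmM_nonneg s Θq μ
            have h3 := dmM_nonneg s Θw μ
            omega
          · have := finrank_quot_lt W hyW hy0
            omega
        have := bt_add _ _ _ hdim x
        omega
  haveI := hGM.fd
  obtain ⟨B, hB⟩ := weights_bdd hs Θ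
  refine key ((B - hf N (x + rhoP N)).toNat + 1) (Module.finrank ℂ M + 1) M Θ hGM hm
    (fun ν hν => ?_) (Nat.lt_succ_self _)
  have h1 := hB ν hν
  push_cast
  have h2 := Int.self_le_toNat (B - hf N (x + rhoP N))
  omega

end mods

end

end Pool.Agent.Helper10.SQ
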