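import Pool.Agent.Helper34.SQ.GoalsM
import Pool.Agent.Helper10.SQ.FSUPP

/-!
Project SQ (MP_bb32d1_al), packets GSUP and G2.
-/

set_option autoImplicit false
set_option linter.unusedSectionVars false

namespace Pool.Agent.Helper10.SQ

noncomputable section

open Finset Pool.Agent.Helper19.SQ Pool.Agent.Helper34.SQ

/-- a vector of the support of `bt` comes from a weight. -/
theorem exists_of_bt_ne_zero {N : ℕ} (f : (Fin (N + 1) → ℤ) → ℤ) (x : Fin (N + 1) → ℤ)
    (h : bt f x ≠ 0) : ∃ S ∈ (phiP N).powerset, f (x + rhoP N + sumP S) ≠ 0 := by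
  rw [bt] at h
  obtain ⟨S, hS, h1⟩ := Finset.exists_ne_zero_of_sum_ne_zero h
  exact ⟨S, hS, fun h0 => h1 (by rw [h0, mul_zero])⟩

theorem support_dmM_finite {N : ℕ} {s : ℕ → ℂˣ} (hs : Function.Injective (tw N s)) {M : Type}
    [AddCommGroup M] [Module ℂ M] [FiniteDimensional ℂ M] (Θ : M →ₗ[ℂ] M) :
    (Function.support (dmM N s Θ)).Finite := by
  have h1 : {c : ℂ | Module.End.HasEigenvalue Θ c}.Finite := Module.End.finite_hasEigenvalue Θ
  refine (h1.preimage hs.injOn).subset fun ν hν => ?_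
  obtain ⟨y, hy, hy0⟩ := exists_of_dmM_ne_zero s Θ hν
  exact Module.End.hasEigenvalue_of_hasEigenvector ⟨hy, hy0⟩

theorem support_bt_finite {N : ℕ} (f : (Fin (N + 1) → ℤ) → ℤ) (hf : (Function.support f).Finite) :
    (Function.support (bt f)).Finite := by
  have h1 : (⋃ S ∈ (phiP N).powerset, (fun ν => ν - (rhoP N + sumP S)) '' Function.support f).Finite :=
    Set.Finite.biUnion (Finset.finite_toSet _) fun S _ => hf.image _
  refine h1.subset fun x hx => ?_
  obtain ⟨S, hS, h2⟩ := exists_of_bt_ne_zero f x hx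
  refine Set.mem_biUnion (x := S) hS ⟨x + rhoP N + sumP S, h2, ?_⟩
  simp only
  abel

theorem t_gsup (hFSUPP : S_FSUPP) : Pool.Agent.Helper34.SQ.S_GSUP := by
  intro N l _ q hl s D C hS m I β hG
  obtain ⟨M, _, _, _, _, Θ, hGM, hm, hI, rfl⟩ := hG
  have := hGM.fd
  refine ⟨support_bt_finite _ (support_dmM_finite hS.gen Θ), fun x hx => ?_⟩
  by_contra hne
  refine hx (hFSUPP N l q hl s D C hS M Θ hGM (Pool.Agent.Helper34.SQ.ty l x) (fun y => ?_) x rfl)
  rw [← hm y, smul_smul, C.e_orth _ _ hne, zero_smul]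

/-! ### types -/

theorem ty_add_single {n l : ℕ} (x : Fin n → ℤ) (p : Fin n) :
    Pool.Agent.Helper34.SQ.ty l (x + Pi.single p 1) =
      Pool.Agent.Helper34.SQ.ty l x - al ((x p : ℤ) : ZMod l) := by
  classical
  funext c
  simp only [Pool.Agent.Helper34.SQ.ty, Pi.sub_apply, al, Finset.card_filter, Nat.cast_sum,
    Nat.cast_ite, Nat.cast_one, Nat.cast_zero]
  rw [← Finset.add_sum_erase _ _ (Finset.mem_univ p),
    ← Finset.add_sum_erase Finset.univ (fun i => if ((x i : ℤ) : ZMod l) = c then (1 : ℤ) else 0)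
      (Finset.mem_univ p)]
  have h1 : ∑ i ∈ Finset.univ.erase p, (if (((x + Pi.single p 1 : Fin n → ℤ) i : ℤ) : ZMod l) = c then
      (1 : ℤ) else 0) = ∑ i ∈ Finset.univ.erase p, (if ((x i : ℤ) : ZMod l) = c then (1 : ℤ) else 0) := by
    refine Finset.sum_congr rfl fun i hi => ?_
    have hne : i ≠ p := (Finset.mem_erase.1 hi).1
    rw [Pi.add_apply, Pi.single_apply, if_neg hne, add_zero]
  rw [h1, Pi.add_apply, Pi.single_eq_same]
  push_cast
  simp only [eq_comm (a := c)]
  ring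

theorem al_injective {l : ℕ} (hl : 2 ≤ l) : Function.Injective (al (l := l)) := by
  intro c c' h
  have : Fact (1 < l) := ⟨hl⟩
  have h1 := congrFun h c
  simp only [al] at h1
  by_contra hne
  have h2 : ¬ c = c + 1 := by simp
  rw [if_neg h2, if_neg hne] at h1
  simp only [if_true] at h1
  split_ifs at h1 <;> omega

theorem bt_ten {N : ℕ} (f g : (Fin (N + 1) → ℤ) → ℤ)
    (h : ∀ μ, f μ = ∑ p, g (μ + Pi.single p 1)) (x : Fin (N + 1) → ℤ) :
    bt f x = ∑ p, bt g (x + Pi.single p 1) := by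
  simp only [bt, h, Finset.mul_sum]
  rw [Finset.sum_comm]
  refine Finset.sum_congr rfl fun p _ => Finset.sum_congr rfl fun S _ => ?_
  congr 2
  abel

theorem t_g2 (hFSUPP : S_FSUPP) (hTEN : S_TEN) (hGSUP : S_GSUP) : Pool.Agent.Helper34.SQ.S_G2 := by
  intro N l _ q hl s D C hS c m I β hG hε
  have hsup := (hGSUP N l q hl s D C hS m I β hG).2
  obtain ⟨M, _, _, _, _, Θ, hGM, hm, hI, rfl⟩ := hG
  obtain ⟨-, Θ', hG', hdim⟩ := hTEN N l q hl s D C hS M Θ hGM
  have hkill : ∀ t : Ten D.ep M, C.e (m + al c) • t = 0 := by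
    intro t
    funext i
    rw [Ten.smul_apply]
    refine Finset.sum_eq_zero fun j _ => ?_
    rw [← hS.c0.ε]
    exact hI _ (hε i j) _
  have hinj := al_injective (l := l) (by have := hS.par.h3; omega)
  funext x
  rw [Pi.zero_apply, Ec]
  by_cases hx : Pool.Agent.Helper34.SQ.ty l x = m + al c
  · have h1 := hFSUPP N l q hl s D C hS (Ten D.ep M) Θ' hG' (m + al c) hkill x hx
    rw [bt_ten _ _ hdim] at h1
    rw [← h1]
    refine Finset.sum_subset (Finset.filter_subset _ _) fun p _ hp => ?_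
    by_contra hne
    have h2 := hsup _ hne
    rw [ty_add_single, hx] at h2
    refine hp (Finset.mem_filter.2 ⟨Finset.mem_univ _, hinj ?_⟩)
    have h3 : al c - al ((x p : ℤ) : ZMod l) = 0 := by
      have : m + al c - al ((x p : ℤ) : ZMod l) = m + (al c - al ((x p : ℤ) : ZMod l)) := by abel
      rw [this] at h2
      exact add_eq_left.1 h2
    exact (sub_eq_zero.1 h3).symm
  · refine Finset.sum_eq_zero fun p hp => ?_
    have hxp := (Finset.mem_filter.1 hp).2
    by_contra hne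
    have h2 := hsup _ hne
    rw [ty_add_single, hxp] at h2
    exact hx (by rw [← h2]; abel)

end

end Pool.Agent.Helper10.SQ
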