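import Pool.Agent.Helper34.SQ.GoalsM

/-!
Project SQ (MP_bb32d1_al), packet TYR.
-/

set_option autoImplicit false

namespace Pool.Agent.Helper10.SQ

open Finset Pool.Agent.Helper19.SQ Pool.Agent.Helper34.SQ

theorem t_tyr : Pool.Agent.Helper34.SQ.S_TYR := by
  intro N l _ μ
  funext c
  simp only [Pool.Agent.Helper19.SQ.ty, Pool.Agent.Helper34.SQ.ty, xl, rd, rhoP, Pi.sub_apply,
    Int.cast_sub, Int.cast_natCast]
  all_goals congr

end Pool.Agent.Helper10.SQ
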